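import Pool.Agent.R907.DetK

/-!
# MP_4ca46c_ag: the Künneth projectors for all `ℓ` and the determinants of the cohomology for one `ℓ`

Let `X` be a smooth proper variety of dimension `n` over a field `k`, in the intended use of
characteristic `p`, and `R` a good reduction of `X` over an algebraic closure of the field with `p`
elements (`Reduction`: the reduction, the specialization of cycles on `X × X` and the Frobenius
endomorphism). Let `𝒲` be the Weil cohomology theories which are pure with respect to `R`: the
`ℓ`-adic theories, for all `ℓ ≠ p`. Let `W` be one of them, with the coefficient field `K`.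

For `i < n` let `b = dim H^i(X) = dim H^(2 n - i)(X)`. The antisymmetrized external products of `b`
classes in `H^i(X)` span a line `det H^i(X)` in `H^(i b)(X^b)`, and the external products of the
elements of `det H^(2 n - i)(X)` and `det H^i(X)` form a line in `H^(2 n b)(X^b × X^b)` (`detPair`).

**Theorem.** The following are equivalent:

* there is one system of cycles on `X × X` with rational coefficients which induces the Künneth
  projectors of `X` for all theories in `𝒲`;
* for all `i < n` with `b > 0` the line `det H^(2 n - i)(X) ⊗ det H^i(X)` contains a nonzero
  `K`-linear combination of classes of cycles of codimension `n b` on `X^b × X^b`.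

For the proof, let `x` and `y` be dual bases of `H^(2 n - i)(X)` and `H^i(X)`. The class of the
projector to `H^i(X)` is the sum of the `x_r ⊗ y_r`, up to a sign. The antisymmetrization of its
`b`-th external power is a generator of the line, and the contraction of the generator with the
diagonals of `b - 1` factors is a multiple of the class of the projector. Then the equality of the
traces on `H^j(X)` in all theories (by Katz and Messing's argument) gives rational cycles which do
not depend on the theory.
-/

open Pool.Agent.H914 Pool.Agent.Y106.One Pool.Agent.R907

universe u₁ v₁ u v

namespace Pool.Agent.Results.MP_4ca46c_ag.DeterminantLines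

/-- **The conjecture of Künneth type for all `ℓ` is equivalent to the algebraicity of `n` lines in the
cohomology for one `ℓ`.** -/
theorem result {k : Type u} [Field k] {𝒱 : VarClass k} {ops : CycleOps 𝒱}
    {k₀ : Type u₁} [Field k₀] {𝒱₀ : VarClass k₀} {ops₀ : CycleOps 𝒱₀} (X : 𝒱.Obj)
    (R : Reduction X 𝒱₀) (W : WeilCohomology.{u, v} ops)
    (hW : Reduction.Pure.{u₁, v₁} R ops₀ W) :
    (∀ i < X.dim, ∀ m, W.betti X i = m + 1 → detPairDim W X i m = 1) ∧
    (OneKunnethSystem.{u, v} (ops := ops) (Reduction.Pure.{u₁, v₁} R ops₀) X ↔
      ∀ i < X.dim, ∀ m, W.betti X i = m + 1 → DetPairAlgebraic W X i m) :=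
  ⟨fun _ hi _ hm => (proj_iff_det (by omega) hm).1, kunneth_det_iff R hW⟩

end Pool.Agent.Results.MP_4ca46c_ag.DeterminantLines
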