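import Pool.Agent.R907.KunMax

/-!
# Maximal partial Künneth projectors, for all primes at the same time

Let `X` be a smooth projective variety of dimension `n` over an algebraically closed field of any
characteristic, for which the `ℓ`-adic theories are `Pure` for a good reduction of `X` over the
algebraic closure of a finite field (smooth and proper base change and the theorem of Deligne).

There are, without any conjecture, ONE system of cycles `z i`, `0 ≤ i ≤ 2 n`, of codimension `n` on
`X × X` with rational coefficients and numbers `r i` such that for ALL these theories (for all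
primes `ℓ`) and all `i`:

* `z i` acts as zero on `H^j(X)` for `j ≠ i`, and as a projector of rank `r i` on `H^i(X)`;
* every combination of cycles of codimension `n` on `X × X` with coefficients in the coefficient
  field (`ℚ_ℓ`) which acts as zero on `H^j(X)` for all `j ≠ i` has at most `r i` nonzero eigenvalues
  on `H^i(X)`, with multiplicities.

The Künneth projectors of `X` are induced, for all these theories, by one system of cycles if and
only if `r i` is the Betti number of `X` in degree `i` for all `i`.
-/

open Pool.Agent.H914 Pool.Agent.Y106.One Pool.Agent.R907

universe u₁ v₁ u v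

namespace Pool.Agent.Results.MP_4ca46c_ag.MaximalProjectors

/-- **The maximal direct factor of `H^i(X)` whose projector is algebraic is cut out, for all
theories, by one cycle with rational coefficients.** -/
theorem result {k : Type u} [Field k] {𝒱 : VarClass k} {ops : CycleOps 𝒱} (X : 𝒱.Obj)
    {k₀ : Type u₁} [Field k₀] {𝒱₀ : VarClass k₀} (ops₀ : CycleOps 𝒱₀) (R : Reduction X 𝒱₀) :
    ∃ (z : ℕ → (X.prod X).Cycles) (r : ℕ → ℕ),
      MaximalProjectors.{u, v} (ops := ops) (Reduction.Pure.{u₁, v₁} R ops₀) X z r ∧
      ∀ W : WeilCohomology.{u, v} ops, Reduction.Pure.{u₁, v₁} R ops₀ W →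
        (OneKunnethSystem.{u, v} (ops := ops) (Reduction.Pure.{u₁, v₁} R ops₀) X ↔
          ∀ i ≤ 2 * X.dim, r i = W.betti X i) :=
  exists_maximalProjectors R

end Pool.Agent.Results.MP_4ca46c_ag.MaximalProjectors
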