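import Pool.Agent.R907.MidK

/-!
# MP_4ca46c_ag: the standard conjecture of Künneth type, for all `ℓ` at once, is a statement about the
middle cohomology for one `ℓ` at a time

`𝒱` is a class of smooth proper varieties over a field `k`, in the intended use of characteristic
`p`. For each variety `X` in `𝒱` let `R X` be a good reduction of `X` over an algebraic closure of the
field with `p` elements (`Reduction`: the reduction, the specialization of cycles on `X × X` and the
Frobenius endomorphism). Let `𝒲` be the Weil cohomology theories `W` which are pure with respect to
all these reductions (`PureForAll`): the `ℓ`-adic theories, for all `ℓ ≠ p`. `P m` is the projective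
space of dimension `m` with a hyperplane `h m` (`ProjLike`), and `C` a class of varieties closed under
the products with the `P m`.

**Theorem.** If there is a theory in `𝒲` at all, the following are equivalent:

* for all `X` in `C` there is one system of cycles on `X × X` with rational coefficients which induces
  the Künneth projectors of `X` for all theories in `𝒲` (`OneKunnethSystem`);
* for arbitrarily large even numbers `N` and arbitrarily large
  odd numbers `N`: for all `Y` in `C` of dimension `N` and all `j < N` there is **one** theory `W` in
  `𝒲`, which may depend on `Y` and `j`, such that for all `y` in the middle cohomology `H^N(Y)` and all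
  `y'` in `H^j(Y)` some linear combination `φ` of algebraic correspondences with coefficients in the
  coefficient field of `W`, which may depend on `y` and `y'`, satisfies `φ y = y`, `φ y' = 0`.
-/

open CategoryTheory AlgebraicGeometry

universe u₁ v₁ u v

namespace Pool.Agent.Results.MP_4ca46c_ag.MiddleCohomology

open Pool.Agent.H914 Pool.Agent.Y106.One Pool.Agent.R907 Pool.Agent.TH720.LB Pool.Agent.TH720.MP
  VarClass Obj

/-- **The conjecture of Künneth type for all `ℓ` holds if and only if in arbitrarily large
dimensions the middle cohomology can be separated from the lower cohomology by algebraic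
correspondences, one pair of classes at a time and for one `ℓ`.** -/
theorem result {k : Type u} [Field k] {𝒱 : VarClass k} {ops : CycleOps 𝒱}
    {k₀ : Type u₁} [Field k₀] {𝒱₀ : VarClass k₀} {ops₀ : CycleOps 𝒱₀}
    (R : ∀ X : 𝒱.Obj, Reduction X 𝒱₀) (P : ℕ → 𝒱.Obj) (h : ∀ m, (P m).Cycles)
    (hP : IsTower.{u₁, v₁, u, v} (ops := ops) ops₀ R P h) (C : 𝒱.Obj → Prop)
    (hC : ClosedUnder P C) (hW : ∃ W : WeilCohomology.{u, v} ops, PureForAll.{u₁, v₁} ops₀ R W) :
    KunnethForAll.{u₁, v₁, u, v} ops ops₀ R C ↔ MiddleForMany.{u₁, v₁, u, v} ops ops₀ R C :=
  (kunneth_middle_iff R P h hP.dim_eq hP.proj C hC).trans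
    ⟨fun h ↦ h hW, fun h _ ↦ h⟩

end Pool.Agent.Results.MP_4ca46c_ag.MiddleCohomology
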