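import Pool.Agent.R907.KunMain

/-!
# A rank criterion for the standard conjecture of Künneth type

Let `X` be a smooth projective variety of dimension `n` over an algebraically closed field of any
characteristic, for which the `ℓ`-adic theories are `Pure` for a good reduction of `X` over the
algebraic closure of a finite field (smooth and proper base change and the theorem of Deligne). Let
`W` be ONE such theory, with projectors `P i` of `H(X)` onto `H^i(X)`.

The dimension of the space of the cycles of codimension `n` on `X × X` modulo numerical
equivalence is at most the sum over `i` of the ranks of the trace forms `tr(a ∘ b | H^i(X))` on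
the correspondences of degree zero, and the following are equivalent:

* there is ONE system of cycles `Δ i`, `0 ≤ i ≤ 2 n`, of codimension `n` on `X × X` with rational
  coefficients which induces the Künneth projectors for ALL such theories;
* the Künneth components of the diagonal for `W` are linear combinations of classes of cycles with
  coefficients in the coefficient field of `W`;
* the two numbers above are equal.
-/

open Pool.Agent.H914 Pool.Agent.Y106.One Pool.Agent.R907

universe u₁ v₁ u v

namespace Pool.Agent.Results.MP_4ca46c_ag.RankCriterion

/-- **The Künneth conjecture for all theories in terms of ranks in one theory.** -/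
theorem result {k : Type u} [Field k] {𝒱 : VarClass k} {ops : CycleOps 𝒱} (X : 𝒱.Obj)
    {k₀ : Type u₁} [Field k₀] {𝒱₀ : VarClass k₀} (ops₀ : CycleOps 𝒱₀) (R : Reduction X 𝒱₀)
    (W : WeilCohomology.{u, v} ops) (hW : Reduction.Pure.{u₁, v₁} R ops₀ W)
    (P : ℕ → Module.End W.K (W.H X)) (hP : ∀ i, IsProjector (W.gr X) i (P i)) :
    numCorrRank ops X ≤ ∑ i ∈ Finset.range (2 * X.dim + 1), formRank (P i) (corrOps W X) ∧
    List.TFAE [
      OneKunnethSystem.{u, v} (ops := ops) (Reduction.Pure.{u₁, v₁} R ops₀) X,
      KunnethOverK W X,
      numCorrRank ops X =
        ∑ i ∈ Finset.range (2 * X.dim + 1), formRank (P i) (corrOps W X)] :=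
  ⟨numCorrRank_le P hP, kunneth_tfae R hW P hP⟩

end Pool.Agent.Results.MP_4ca46c_ag.RankCriterion
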